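import Pool.Agent.H90.EH.Targets

/-! CIN: comparison of the boxes. -/

set_option autoImplicit false

namespace Pool.Agent.H56.EH

open Finset Pool.Agent.H90.EH
open scoped Classical

section
variable {V : Type} [AddCommGroup V] [Module ℚ V]

/-- the indicator of the smaller entries -/
noncomputable def sm {k p : ℕ} (e : Fin k → Fin p → ℚ) (i : Fin k → Fin p) :
    Fin k → Fin p → ℚ := fun j i' => if e j i' < e j (i j) then 1 else 0

/-- the translation vector -/
noncomputable def tv {k p : ℕ} (v : Fin k → Fin p → V) (e : Fin k → Fin p → ℚ)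
    (i : Fin k → Fin p) : V := ∑ j, ∑ i', sm e i j i' • v j i'

lemma box_sub_cone {A B : Finset V} {q : V} (hB : IsB A B) (hq : ∀ b ∈ B, co B q b ≠ 0) {x : V}
    (hx : x ∈ Bx B q) : x ∈ Cone A := by
  have h1 : x ∈ Cone B := by
    refine ⟨co B x, fun b hb => ?_, co_spec hx.1⟩
    rcases lt_or_gt_of_ne (hq b hb) with h | h
    · exact ((hx.2 b hb).2 h).1.le
    · exact ((hx.2 b hb).1 h).1
  exact cone_mono (fun b hb => cone_mem (hB.1 hb)) h1

lemma tv_mem {Λ : AddSubgroup V} {ht : V →ₗ[ℚ] ℚ} {A AF : Finset V} {k p : ℕ}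
    {v : Fin k → Fin p → V} (hO : Orb A AF k p v) (hA : LF Λ ht A) (e : Fin k → Fin p → ℚ)
    (i : Fin k → Fin p) : tv v e i ∈ Λ := by
  unfold tv
  refine AddSubgroup.sum_mem _ fun j _ => AddSubgroup.sum_mem _ fun i' _ => ?_
  unfold sm
  split_ifs
  · rw [one_smul]
    exact (hA.1 _ (hO.mem j i')).1
  · rw [zero_smul]
    exact Λ.zero_mem

lemma tv_ht {Λ : AddSubgroup V} {ht : V →ₗ[ℚ] ℚ} {A AF : Finset V} {k p : ℕ}
    {v : Fin k → Fin p → V} (hO : Orb A AF k p v) (hA : LF Λ ht A) (e : Fin k → Fin p → ℚ)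
    (i : Fin k → Fin p) : ht (tv v e i) =
      ((∑ j, (univ.filter (fun i' => e j i' < e j (i j))).card : ℕ) : ℚ) := by
  unfold tv
  rw [map_sum, Nat.cast_sum]
  refine sum_congr rfl fun j _ => ?_
  rw [map_sum, card_filter, Nat.cast_sum]
  refine sum_congr rfl fun i' _ => ?_
  rw [map_smul, (hA.1 _ (hO.mem j i')).2, smul_eq_mul, mul_one]
  unfold sm
  split_ifs <;> simp

lemma tv_sp {A AF : Finset V} {k p : ℕ} {v : Fin k → Fin p → V} (hO : Orb A AF k p v)
    (e : Fin k → Fin p → ℚ) (i : Fin k → Fin p) : tv v e i ∈ Sp A := by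
  unfold tv
  exact Submodule.sum_mem _ fun j _ => Submodule.sum_mem _ fun i' _ =>
    Submodule.smul_mem _ _ (sub_Sp (hO.mem j i'))

end

theorem pf_CIN (h1 : T_GBC) (h2 : T_GBI) (_h3 : T_INJ) : T_CIN := by
  intro V _ _ Λ ht A AF BF k p v qF q e i hp hA hO hqF hq hD hBF m
  have hGB : IsB A (GB BF v i) := h2 V A AF BF k p v i hp hO hBF
  have hqne : ∀ b ∈ GB BF v i, co (GB BF v i) q b ≠ 0 := hq.2 _ hGB
  have hqFne : ∀ b ∈ BF, co BF qF b ≠ 0 := hqF.2 _ hBF
  unfold cnt
  refine Set.ncard_le_ncard_of_injOn (fun y => y + tv v e i) ?_ ?_ ?_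
  · rintro y ⟨hy, hyL, hyh⟩
    have hyAF : y ∈ Sp AF := by
      rw [hBF.sp]
      exact hy.1
    have hco := h1 V A AF BF k p v i (sm e i) y hp hO hBF hyAF
    have hzero : ∀ j, sm e i j (i j) = 0 := fun j => by simp [sm]
    have hcob : ∀ b ∈ BF, co (GB BF v i) (y + tv v e i) b = co BF y b := by
      intro b hb
      have := hco.2 b hb
      simp only [hzero, zero_smul, sum_const_zero, add_zero] at this
      exact this
    have hcov : ∀ j i', i' ≠ i j → co (GB BF v i) (y + tv v e i) (v j i') = sm e i j i' := by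
      intro j i' hne
      have := hco.1 j i' hne
      rw [hzero, sub_zero] at this
      exact this
    refine ⟨⟨?_, ?_⟩, Λ.add_mem hyL (tv_mem hO hA e i), ?_⟩
    · rw [← hGB.sp]
      exact Submodule.add_mem _ (Sp_mono hO.sub hyAF) (tv_sp hO e i)
    · intro b hb
      have hb' := hb
      unfold GB at hb'
      rcases mem_union.1 hb' with hbF | hbv
      · have hd := (hD.2 BF hBF i).1 b hbF
        rw [hcob b hbF]
        refine ⟨fun h => (hy.2 b hbF).1 (hd.1 h), fun h => (hy.2 b hbF).2 ?_⟩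
        rcases lt_or_gt_of_ne (hqFne b hbF) with h' | h'
        · exact h'
        · exact absurd (hd.2 h') h.le.not_gt
      · obtain ⟨⟨j, i'⟩, hji, rfl⟩ := mem_image.1 hbv
        have hne : i' ≠ i j := by simpa using hji
        have hd := (hD.2 BF hBF i).2 j i' hne
        simp only
        rw [hcov j i' hne]
        unfold sm
        refine ⟨fun h => ?_, fun h => ?_⟩
        · rw [if_neg (hd.1 h).not_gt]
          norm_num
        · have h3 : ¬ e j (i j) < e j i' := fun h4 => absurd (hd.2 h4) h.le.not_gt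
          have h4 : e j i' < e j (i j) := by
            rcases lt_trichotomy (e j i') (e j (i j)) with h5 | h5 | h5
            · exact h5
            · exact absurd (hD.1 j h5) hne
            · exact absurd h5 h3
          rw [if_pos h4]
          norm_num
    · rw [map_add, hyh, tv_ht hO hA e i, Nat.cast_add]
  · intro y _ y' _ h
    exact add_right_cancel h
  · refine (hA.2 (m + ∑ j, (univ.filter (fun i' => e j i' < e j (i j))).card)).subset ?_
    rintro x ⟨hx, hxL, hxh⟩
    exact ⟨box_sub_cone hGB hqne hx, hxL, hxh⟩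

end Pool.Agent.H56.EH
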