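import Pool.Agent.H90.EH.Targets

/-! PHK: the generating function of the shifts. -/

set_option autoImplicit false

namespace Pool.Agent.H56.EH

open Finset Pool.Agent.H90.EH
open scoped Classical

lemma sum_pow_rank {p : ℕ} (e : Fin p → ℚ) (he : Function.Injective e) :
    ∑ a : Fin p, (PowerSeries.X : PowerSeries ℤ) ^
      ((univ.filter (fun i' => e i' < e a)).card) = Ph p := by
  set f : Fin p → ℕ := fun a => (univ.filter (fun i' => e i' < e a)).card with hf
  have hlt : ∀ a b, e a < e b → f a < f b := by
    intro a b hab
    apply Finset.card_lt_card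
    rw [Finset.ssubset_iff_of_subset]
    · exact ⟨a, by simp [hab], by simp⟩
    · intro x hx
      simp only [mem_filter, mem_univ, true_and] at hx ⊢
      exact hx.trans hab
  have hinj : Function.Injective f := by
    intro a b hab
    rcases lt_trichotomy (e a) (e b) with h | h | h
    · exact absurd hab (hlt a b h).ne
    · exact he h
    · exact absurd hab (hlt b a h).ne'
  have hran : (univ : Finset (Fin p)).image f = range p := by
    apply Finset.eq_of_subset_of_card_le
    · intro x hx
      obtain ⟨a, -, rfl⟩ := mem_image.1 hx
      rw [mem_range]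
      have h1 : (univ.filter (fun i' => e i' < e a)).card < (univ : Finset (Fin p)).card := by
        apply Finset.card_lt_card
        rw [Finset.ssubset_iff_of_subset (subset_univ _)]
        exact ⟨a, mem_univ _, by simp⟩
      simpa using h1
    · rw [card_range, card_image_of_injective _ hinj]
      simp
  unfold Ph
  rw [← hran, sum_image (fun a _ b _ h => hinj h)]

theorem pf_PHK : T_PHK := by
  intro k p e he
  have h1 : ∀ i : Fin k → Fin p, (PowerSeries.X : PowerSeries ℤ) ^
      (∑ j, (univ.filter (fun i' => e j i' < e j (i j))).card) =
      ∏ j, (PowerSeries.X : PowerSeries ℤ) ^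
        ((univ.filter (fun i' => e j i' < e j (i j))).card) := by
    intro i
    rw [prod_pow_eq_pow_sum]
  rw [sum_congr rfl (fun i _ => h1 i)]
  have h2 := Finset.prod_univ_sum (fun _ : Fin k => (univ : Finset (Fin p)))
    (fun j a => (PowerSeries.X : PowerSeries ℤ) ^
      ((univ.filter (fun i' => e j i' < e j a)).card))
  rw [Fintype.piFinset_univ] at h2
  rw [← h2, prod_congr rfl (fun j _ => sum_pow_rank (e j) (he j))]
  simp

end Pool.Agent.H56.EH
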